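import Pool.Agent.H41.HYP.S7

/-!
# HYP: the top coefficients of the twists
-/

set_option autoImplicit false

namespace Pool.HYP

open Polynomial

theorem top : TOPStmt := by
  intro F _ g D h hD f hf d hd
  obtain ⟨-, -, htd, -⟩ := hD
  obtain ⟨hm, hdeg, hco, -⟩ := hf
  obtain ⟨n, hn⟩ : ∃ n, n = 2 * g + 1 := ⟨_, rfl⟩
  rw [← hn] at hdeg hco htd ⊢
  have key : ∀ i ∈ Finset.range (n + 1), ((f.scaleRoots d).coeff (n - i)).coeff
      (i * (h + d.natDegree)) = D.top.coeff (n - i) := by
    intro i hi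
    have hi' : i ≤ n := Nat.lt_succ_iff.1 (Finset.mem_range.1 hi)
    obtain ⟨h1, h2⟩ := hco i hi'
    rw [coeff_scaleRoots, hdeg, show n - (n - i) = i by omega, Nat.mul_add]
    have h3 : (d ^ i).natDegree = i * d.natDegree := hd.natDegree_pow i
    have h4 : (d ^ i).coeff (i * d.natDegree) = 1 := by
      rw [← h3]
      exact (hd.pow i).coeff_natDegree
    rw [coeff_mul_add_eq_of_natDegree_le h1 h3.le, h4, mul_one, h2]
  unfold topOf
  rw [Finset.sum_congr rfl fun i hi => by rw [key i hi]]
  have h5 : ∑ i ∈ Finset.range (n + 1), monomial i (D.top.coeff i) = D.top := by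
    rw [← htd]
    exact D.top.as_sum_range.symm
  rw [← Finset.sum_range_reflect] at h5
  refine Eq.trans (Finset.sum_congr rfl fun i hi => ?_) h5
  rw [show n + 1 - 1 - i = n - i by omega]

end Pool.HYP
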